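import Pool.Agent.T9h45.IT.Main

/-!
# Families of pairwise non-adjacent connected sets in a model of the tree
-/

set_option autoImplicit false

namespace Pool.T9h45.IT

open Finset

variable {V E : Type} [Fintype V] [DecidableEq V] [Fintype E] [DecidableEq E]

/-- the vertices in `U` span a connected subgraph -/
def Conn (src dst : E → V) (U : Finset V) : Prop :=
  ∀ X : Finset V, (∃ v ∈ U, v ∈ X) → (∃ v ∈ U, v ∉ X) →
    ∃ e, src e ∈ U ∧ dst e ∈ U ∧ ¬ (src e ∈ X ↔ dst e ∈ X)

/-- `s` pairwise disjoint connected sets with at least `k` vertices each, without edges between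
different sets -/
def Family (src dst : E → V) (s k : ℕ) : Prop :=
  ∃ U : Fin s → Finset V, (∀ i, k ≤ (U i).card) ∧ (∀ i, Conn src dst (U i)) ∧
    (∀ i j, i ≠ j → Disjoint (U i) (U j)) ∧ ∀ e i j, src e ∈ U i → dst e ∈ U j → i = j

/-- the words with at most `j` letters -/
def W : ℕ → Finset (List Bool)
  | 0 => {[]}
  | j + 1 => insert [] ((W j).image (List.cons true) ∪ (W j).image (List.cons false))

theorem mem_W (j : ℕ) : ∀ u, u ∈ W j ↔ u.length ≤ j := by
  induction j with
  | zero =>
    intro u
    unfold W
    rw [mem_singleton, Nat.le_zero, List.length_eq_zero_iff]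
  | succ j ih =>
    intro u
    unfold W
    rw [mem_insert, mem_union, mem_image, mem_image]
    cases u with
    | nil => simp
    | cons c u =>
      rw [List.length_cons, Nat.add_le_add_iff_right, ← ih u]
      cases c <;> simp

theorem card_W (j : ℕ) : (W j).card + 1 = 2 ^ (j + 1) := by
  induction j with
  | zero => rfl
  | succ j ih =>
    unfold W
    rw [card_insert_of_notMem, card_union_of_disjoint, card_image_of_injective,
      card_image_of_injective, pow_succ, ← ih]
    · ring
    · exact fun a b h => by simpa using h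
    · exact fun a b h => by simpa using h
    · rw [Finset.disjoint_left]
      intro a ha hb
      obtain ⟨x, _, rfl⟩ := mem_image.1 ha
      obtain ⟨y, _, hy⟩ := mem_image.1 hb
      simp at hy
    · simp

variable {src dst : E → V} {F : Finset E} {β : V → Option (Bool × List Bool)}

omit [Fintype V] [DecidableEq V] [DecidableEq E] in
theorem Mod.ne (h : Mod src dst F β) (t : Bool × List Bool) (ht : Addr t) :
    ∃ v, β v = some t := by
  obtain ⟨b, w⟩ := t
  cases w with
  | nil =>
    obtain ⟨e, he⟩ := h.join _ _ TE.root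
    cases b
    · rcases he with he | he
      · exact ⟨_, he.1⟩
      · exact ⟨_, he.1⟩
    · rcases he with he | he
      · exact ⟨_, he.2⟩
      · exact ⟨_, he.2⟩
  | cons c w =>
    obtain ⟨e, he⟩ := h.join _ _ (TE.child b c w ht)
    rcases he with he | he
    · exact ⟨_, he.2⟩
    · exact ⟨_, he.2⟩

theorem Mod.family (h : Mod src dst F β) (j : ℕ) (R : List (Bool × List Bool)) (hnd : R.Nodup)
    (ha : ∀ r ∈ R, r.2.length + j ≤ if r.1 then 4 else 5)
    (hb : ∀ r ∈ R, ∀ r' ∈ R, r.1 = r'.1 → r.2.length = r'.2.length ∨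
      r.2.length + j + 2 ≤ r'.2.length ∨ r'.2.length + j + 2 ≤ r.2.length)
    (hc : ∀ r ∈ R, r.1 = false → r.2 ≠ []) :
    Family src dst R.length (2 ^ (j + 1) - 1) := by
  classical
  let U : Bool × List Bool → Finset V := fun r =>
    univ.filter (fun v => ∃ u : List Bool, u.length ≤ j ∧ β v = some (r.1, u ++ r.2))
  have hU : ∀ r v, v ∈ U r ↔ ∃ u : List Bool, u.length ≤ j ∧ β v = some (r.1, u ++ r.2) := by
    intro r v
    simp only [U, mem_filter, mem_univ, true_and]
  have hadr : ∀ r ∈ R, ∀ u : List Bool, u.length ≤ j → Addr (r.1, u ++ r.2) := by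
    intro r hr u hu
    have h1 := ha r hr
    unfold Addr
    simp only [List.length_append]
    omega
  -- the roots are determined by the nodes
  have key : ∀ r ∈ R, ∀ r' ∈ R, ∀ u u' : List Bool, u.length ≤ j → u'.length ≤ j → r.1 = r'.1 →
      u ++ r.2 = u' ++ r'.2 → r = r' := by
    intro r hr r' hr' u u' hu hu' hbb hw
    have hl := congrArg List.length hw
    rw [List.length_append, List.length_append] at hl
    rcases hb r hr r' hr' hbb with h1 | h1 | h1
    · exact Prod.ext hbb (List.append_inj_right' hw h1)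
    · omega
    · omega
  have key2 : ∀ r ∈ R, ∀ r' ∈ R, ∀ u u' : List Bool, u.length ≤ j → u'.length ≤ j →
      TE (r.1, u ++ r.2) (r'.1, u' ++ r'.2) → r = r' := by
    intro r hr r' hr' u u' hu hu' hte
    generalize hx : (r.1, u ++ r.2) = x at hte
    generalize hy : (r'.1, u' ++ r'.2) = y at hte
    cases hte with
    | root =>
      exfalso
      rw [Prod.mk.injEq] at hx
      exact hc r hr hx.1 (List.append_eq_nil_iff.1 hx.2).2
    | child b c w hw =>
      rw [Prod.mk.injEq] at hx hy
      have hbb : r.1 = r'.1 := hx.1.trans hy.1.symm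
      have h2 : (c :: u) ++ r.2 = u' ++ r'.2 := by
        rw [List.cons_append, hx.2, hy.2]
      have hl := congrArg List.length h2
      rw [List.length_append, List.length_append, List.length_cons] at hl
      rcases hb r hr r' hr' hbb with h1 | h1 | h1
      · exact Prod.ext hbb (List.append_inj_right' h2 h1)
      · omega
      · omega
  refine ⟨fun i => U (R.get i), ?_, ?_, ?_, ?_⟩
  · intro i
    have hr : R.get i ∈ R := List.get_mem R i
    have hex : ∀ u : List Bool, ∃ v, u.length ≤ j → β v = some ((R.get i).1, u ++ (R.get i).2) := by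
      intro u
      by_cases hu : u.length ≤ j
      · obtain ⟨v, hv⟩ := h.ne _ (hadr _ hr u hu)
        exact ⟨v, fun _ => hv⟩
      · obtain ⟨v, hv⟩ := h.ne _ (hadr _ hr [] (by simp))
        exact ⟨v, fun h => absurd h hu⟩
    choose v hv using hex
    have h1 : (W j).card ≤ (U (R.get i)).card := by
      apply card_le_card_of_injOn v
      · intro u hu
        rw [mem_coe, mem_W] at hu
        rw [mem_coe, hU]
        exact ⟨u, hu, hv u hu⟩
      · intro u hu u' hu' huu
        rw [mem_coe, mem_W] at hu hu'
        have h2 := hv u hu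
        rw [huu, hv u' hu', Option.some_inj, Prod.mk.injEq] at h2
        exact (List.append_cancel_right h2.2).symm
    have h2 := card_W j
    show 2 ^ (j + 1) - 1 ≤ (U (R.get i)).card
    omega
  · intro i X hX hX'
    have hr : R.get i ∈ R := List.get_mem R i
    set r := R.get i with hrdef
    obtain ⟨v, hv, hvX⟩ := hX
    obtain ⟨v', hv', hvX'⟩ := hX'
    rw [hU] at hv hv'
    obtain ⟨u, hu, hβ⟩ := hv
    obtain ⟨u', hu', hβ'⟩ := hv'
    by_contra hcon
    push Not at hcon
    -- no class is split
    have hns : ∀ u : List Bool, u.length ≤ j → ∀ a b, β a = some (r.1, u ++ r.2) →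
        β b = some (r.1, u ++ r.2) → a ∈ X → b ∈ X := by
      intro u hu a b ha hb haX
      by_contra hbX
      obtain ⟨e, h1, h2, h3⟩ := h.conn _ (hadr r hr u hu) (fun v => v ∈ X) ⟨a, haX, ha⟩ ⟨b, hbX, hb⟩
      exact h3 (hcon e ((hU _ _).2 ⟨u, hu, h1⟩) ((hU _ _).2 ⟨u, hu, h2⟩))
    have hall : ∀ u : List Bool, u.length ≤ j → ∀ a b, β a = some (r.1, u ++ r.2) →
        β b = some (r.1, r.2) → (a ∈ X ↔ b ∈ X) := by
      intro u
      induction u with
      | nil =>
        intro _ a b ha hb
        exact ⟨hns [] (by simp) a b ha hb, hns [] (by simp) b a hb ha⟩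
      | cons c u ih =>
        intro hu a b ha hb
        rw [List.length_cons] at hu
        have hte := TE.child r.1 c (u ++ r.2) (hadr r hr (c :: u) (by rw [List.length_cons]; exact hu))
        obtain ⟨e, he⟩ := h.join _ _ hte
        have hu1 : u.length ≤ j := by omega
        have hu2 : (c :: u).length ≤ j := by rw [List.length_cons]; exact hu
        rcases he with ⟨h1, h2⟩ | ⟨h1, h2⟩
        · have h3 := hcon e ((hU _ _).2 ⟨u, hu1, h1⟩) ((hU _ _).2 ⟨c :: u, hu2, h2⟩)
          have h4 := ih hu1 (src e) b h1 hb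
          rw [← h4, h3]
          exact ⟨hns _ hu2 a _ ha h2, hns _ hu2 _ a h2 ha⟩
        · have h3 := hcon e ((hU _ _).2 ⟨c :: u, hu2, h2⟩) ((hU _ _).2 ⟨u, hu1, h1⟩)
          have h4 := ih hu1 (dst e) b h1 hb
          rw [← h4, ← h3]
          exact ⟨hns _ hu2 a _ ha h2, hns _ hu2 _ a h2 ha⟩
    obtain ⟨b, hb0⟩ := h.ne _ (hadr r hr [] (by simp))
    have h1 := hall u hu v b hβ hb0
    have h2 := hall u' hu' v' b hβ' hb0
    exact hvX' (h2.2 (h1.1 hvX))
  · intro i i' hii
    rw [Finset.disjoint_left]
    intro v hv hv'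
    rw [hU] at hv hv'
    obtain ⟨u, hu, h1⟩ := hv
    obtain ⟨u', hu', h2⟩ := hv'
    rw [h1, Option.some_inj, Prod.mk.injEq] at h2
    have h3 := key _ (List.get_mem R i) _ (List.get_mem R i') u u' hu hu' h2.1 h2.2
    exact hii (hnd.injective_get h3)
  · intro e i i' h1 h2
    rw [hU] at h1 h2
    obtain ⟨u, hu, h1⟩ := h1
    obtain ⟨u', hu', h2⟩ := h2
    apply hnd.injective_get
    rcases h.ind e _ _ h1 h2 with h3 | h3 | h3
    · rw [Prod.mk.injEq] at h3
      exact key _ (List.get_mem R i) _ (List.get_mem R i') u u' hu hu' h3.1 h3.2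
    · exact key2 _ (List.get_mem R i) _ (List.get_mem R i') u u' hu hu' h3
    · exact (key2 _ (List.get_mem R i') _ (List.get_mem R i) u' u hu' hu h3).symm

/-- the words with `n` letters -/
def wl : ℕ → List (List Bool)
  | 0 => [[]]
  | n + 1 => (wl n).flatMap fun w => [true :: w, false :: w]

/-- the nodes on the levels `L` of the first side and `L'` of the second side -/
def roots (L L' : List ℕ) : List (Bool × List Bool) :=
  (L.flatMap fun n => (wl n).map fun w => (false, w)) ++
    (L'.flatMap fun n => (wl n).map fun w => (true, w))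

set_option maxRecDepth 100000 in
theorem Mod.five (h : Mod src dst F β) :
    Family src dst 63 1 ∧ Family src dst 27 3 ∧ Family src dst 12 7 ∧ Family src dst 6 15 ∧
      Family src dst 3 31 :=
  ⟨h.family 0 (roots [1, 3, 5] [0, 2, 4]) (by decide) (by decide) (by decide) (by decide),
    h.family 1 (roots [1, 4] [0, 3]) (by decide) (by decide) (by decide) (by decide),
    h.family 2 (roots [3] [2]) (by decide) (by decide) (by decide) (by decide),
    h.family 3 (roots [2] [1]) (by decide) (by decide) (by decide) (by decide),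
    h.family 4 (roots [1] [0]) (by decide) (by decide) (by decide) (by decide)⟩

end Pool.T9h45.IT
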