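import Pool.Agent.H173FL.Tree
import Pool.Agent.Y335.FL.Main
import Pool.Agent.Y335.FL.Local11

/-!
# Graphs which do not contain the complete cubic tree of radius five as an induced minor
-/

set_option autoImplicit false

namespace Pool.T9h45.IT

open Finset Pool.Agent.TH676.Z Pool.Agent.Y335.FL Pool.Agent.Y358.IN Pool.Agent.H173FL

/-- the nodes of the tree -/
def Addr (t : Bool × List Bool) : Prop := t.2.length ≤ if t.1 then 4 else 5

/-- the edges of the tree -/
inductive TE : Bool × List Bool → Bool × List Bool → Prop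
  | root : TE (false, []) (true, [])
  | child (b c : Bool) (w : List Bool) (h : Addr (b, c :: w)) : TE (b, w) (b, c :: w)

/-- an induced minor model -/
structure Mod {V E : Type} [Fintype E] (src dst : E → V) (F : Finset E)
    (β : V → Option (Bool × List Bool)) : Prop where
  addr : ∀ v t, β v = some t → Addr t
  conn : ∀ t, Addr t → ∀ X : V → Prop, (∃ v, X v ∧ β v = some t) → (∃ v, ¬ X v ∧ β v = some t) →
    ∃ e, β (src e) = some t ∧ β (dst e) = some t ∧ ¬ (X (src e) ↔ X (dst e))
  bdry : ∀ t, Addr t → 3 ≤ (univ.filter (fun e => ¬ (β (src e) = some t ↔ β (dst e) = some t))).card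
  join : ∀ t t', TE t t' → ∃ e, (β (src e) = some t ∧ β (dst e) = some t') ∨
    (β (dst e) = some t ∧ β (src e) = some t')
  ind : ∀ e t t', β (src e) = some t → β (dst e) = some t' → t = t' ∨ TE t t' ∨ TE t' t
  con : ∀ e ∈ F, β (src e) = β (dst e)

section cls

variable {V E : Type} [Fintype V] [DecidableEq V] [Fintype E] [DecidableEq E]

theorem mod_ctr (src dst : E → V) (e : E) {β : V → Option (Bool × List Bool)}
    (h : Mod (ctr (src e) (dst e) ∘ src) (ctr (src e) (dst e) ∘ dst) ∅ β) :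
    Mod src dst ∅ (β ∘ ctr (src e) (dst e)) := by
  set φ := ctr (src e) (dst e) with hφ
  have hφb : φ (dst e) = src e := by simp [hφ, ctr]
  have hφa : φ (src e) = src e := by
    simp only [hφ, ctr]
    split_ifs <;> rfl
  have hφx : ∀ x, x ≠ dst e → φ x = x := by
    intro x hx
    simp [hφ, ctr, hx]
  refine ⟨fun v t hv => h.addr (φ v) t hv, ?_, h.bdry, h.join, h.ind, fun e he => absurd he
    (notMem_empty e)⟩
  intro t ht X hv hv'
  obtain ⟨v, hvX, hvt⟩ := hv
  obtain ⟨v', hvX', hvt'⟩ := hv'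
  simp only [Function.comp] at hvt hvt' ⊢
  by_cases ha : β (src e) = some t
  · by_cases hX : X (src e) ↔ X (dst e)
    · have hXφ : ∀ x, X (φ x) ↔ X x := by
        intro x
        by_cases hx : x = dst e
        · rw [hx, hφb, hX]
        · rw [hφx x hx]
      obtain ⟨e', a1, a2, a3⟩ := h.conn t ht X ⟨φ v, (hXφ v).mpr hvX, hvt⟩
        ⟨φ v', fun h => hvX' ((hXφ v').mp h), hvt'⟩
      refine ⟨e', a1, a2, fun h => a3 ?_⟩
      simp only [Function.comp]
      rw [hXφ, hXφ]
      exact h
    · exact ⟨e, by rw [hφa]; exact ha, by rw [hφb]; exact ha, hX⟩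
  · have hne : ∀ x, β (φ x) = some t → φ x = x := by
      intro x hx
      refine hφx x fun h => ha ?_
      rw [h, hφb] at hx
      exact hx
    obtain ⟨e', a1, a2, a3⟩ := h.conn t ht X ⟨v, hvX, by rw [hne v hvt] at hvt; exact hvt⟩
      ⟨v', hvX', by rw [hne v' hvt'] at hvt'; exact hvt'⟩
    simp only [Function.comp] at a1 a2 a3
    refine ⟨e', a1, a2, fun h => a3 ?_⟩
    rw [hne _ a1, hne _ a2]
    exact h

theorem cc : CC (V := V) (E := E) (fun src dst => ¬ ∃ β, Mod src dst ∅ β) := by
  intro src dst e h _ h'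
  obtain ⟨β, hβ⟩ := h'
  exact h ⟨_, mod_ctr src dst e hβ⟩

/-- the preimage of a model under the contraction of `F` -/
theorem mod_quot (src dst : E → V) (F : Finset E) {W : Type} [DecidableEq W] (r : V → W)
    (hF : ∀ e ∈ F, r (src e) = r (dst e))
    (hY : ∀ Y : Finset V, Disjoint (crs src dst Y) F → ∀ x y, r x = r y → (x ∈ Y ↔ y ∈ Y))
    (hr : Function.Surjective r)
    {β : W → Option (Bool × List Bool)} (h : Mod (r ∘ src) (r ∘ dst) ∅ β) :
    Mod src dst F (β ∘ r) := by
  classical
  refine ⟨fun v t hv => h.addr (r v) t hv, ?_, h.bdry, h.join, h.ind, fun e he => by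
    simp only [Function.comp]; rw [hF e he]⟩
  intro t ht X hv hv'
  obtain ⟨v, hvX, hvt⟩ := hv
  obtain ⟨v', hvX', hvt'⟩ := hv'
  simp only [Function.comp] at hvt hvt' ⊢
  by_cases hsat : ∀ x y, β (r x) = some t → r x = r y → (X x ↔ X y)
  · obtain ⟨e, a1, a2, a3⟩ := h.conn t ht (fun w => ∃ x, r x = w ∧ X x)
      ⟨r v, ⟨v, rfl, hvX⟩, hvt⟩ ⟨r v', fun ⟨x, hx, hX⟩ => hvX' ((hsat v' x hvt' hx.symm).2 hX), hvt'⟩
    simp only [Function.comp] at a1 a2 a3
    refine ⟨e, a1, a2, fun h4 => a3 ?_⟩
    constructor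
    · rintro ⟨x, hx, hX⟩
      have h5 := (hsat x (src e) (by rw [hx]; exact a1) hx).1 hX
      exact ⟨dst e, rfl, h4.1 h5⟩
    · rintro ⟨x, hx, hX⟩
      have h5 := (hsat x (dst e) (by rw [hx]; exact a2) hx).1 hX
      exact ⟨src e, rfl, h4.2 h5⟩
  · push Not at hsat
    obtain ⟨x, y, hx, hxy, hXxy⟩ := hsat
    -- the part of `X` in the class of `x`
    let Y : Finset V := univ.filter (fun z => r z = r x ∧ X z)
    have h1 : ¬ Disjoint (crs src dst Y) F := by
      intro h2
      have h3 := hY Y h2 x y hxy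
      simp only [Y, mem_filter, mem_univ, true_and, hxy] at h3
      tauto
    rw [Finset.not_disjoint_iff] at h1
    obtain ⟨e, he, heF⟩ := h1
    have h2 := hF e heF
    simp only [crs, Y, mem_filter, mem_univ, true_and] at he
    have h3 : r (src e) = r x := by
      by_contra h4
      apply he
      rw [← h2]
      tauto
    refine ⟨e, by rw [h3]; exact hx, by rw [← h2, h3]; exact hx, fun h4 => he ?_⟩
    rw [← h2, h3, h4]

end cls

section graph

variable {V : Type} [Fintype V] [DecidableEq V] {G : SimpleGraph V}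
variable (h12 : ∀ (w : V) (c : G.Walk w w), c.IsCycle → 12 ≤ c.length)
  (N : V → V → V × V)
  (hN : ∀ v pr : V, (∃ z, G.Adj v z) → G.Adj v (N v pr).1 ∧ G.Adj v (N v pr).2 ∧
    (N v pr).1 ≠ (N v pr).2 ∧ (N v pr).1 ≠ pr ∧ (N v pr).2 ≠ pr)

include h12 hN

/-- two adjacent vertices on the same side -/
theorem adj_same {x y : V} (hxy : G.Adj x y) (w w' : List Bool) (hw : w.length ≤ 5)
    (hw' : w'.length ≤ 5) (h : G.Adj (addr N x y w).1 (addr N x y w').1) :
    (∃ c, w = c :: w') ∨ ∃ c, w' = c :: w := by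
  obtain ⟨p, hp, hy, hpl, hpen⟩ := addr_path h12 N hN hxy w hw
  obtain ⟨p', hp', hy', hpl', hpen'⟩ := addr_path h12 N hN hxy w' hw'
  have hq : (SimpleGraph.Walk.cons hxy.symm p).IsPath := by
    rw [SimpleGraph.Walk.cons_isPath_iff]
    exact ⟨hp, hy⟩
  by_cases ha : (addr N x y w').1 = (addr N x y w).2
  · cases w with
    | nil =>
      exfalso
      apply hy'
      have h9 : ∀ z, (addr N x y w').1 = z → z ∈ p'.support := by
        intro z hz
        subst hz
        exact p'.end_mem_support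
      exact h9 y ha
    | cons c w =>
      left
      refine ⟨c, ?_⟩
      rw [List.length_cons] at hw
      have h1 : (addr N x y w').1 = (addr N x y w).1 := ha
      rw [addr_inj h12 N hN hxy w' w hw' (by omega) h1]
  · right
    have h4 := ext_path h12 _ hq (by rw [SimpleGraph.Walk.length_cons]; omega) h
      (by rw [hpen]; exact ha)
    rw [SimpleGraph.Walk.support_cons, List.mem_cons, not_or] at h4
    have e1 := Ord.uniq h12 hp' (hp.concat h4.2 h) (by
      rw [SimpleGraph.Walk.length_concat]; omega)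
    -- the predecessor of the last vertex
    have h5 : (addr N x y w').2 = (addr N x y w).1 := by
      rw [← hpen', e1]
      rw [show SimpleGraph.Walk.cons hxy.symm (p.concat h)
          = (SimpleGraph.Walk.cons hxy.symm p).concat h from rfl,
          SimpleGraph.Walk.penultimate_concat]
    cases w' with
    | nil =>
      exfalso
      apply hy
      have h9 : ∀ z, (addr N x y w).1 = z → z ∈ p.support := by
        intro z hz
        subst hz
        exact p.end_mem_support
      exact h9 y h5.symm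
    | cons c w' =>
      refine ⟨c, ?_⟩
      rw [List.length_cons] at hw'
      have h1 : (addr N x y w').1 = (addr N x y w).1 := h5
      rw [addr_inj h12 N hN hxy w' w (by omega) hw h1]

/-- two adjacent vertices on different sides -/
theorem adj_diff {x y : V} (hxy : G.Adj x y) (w w' : List Bool) (hw : w.length ≤ 5)
    (hw' : w'.length ≤ 4) (h : G.Adj (addr N x y w).1 (addr N y x w').1) :
    w = [] ∧ w' = [] := by
  obtain ⟨p, hp, hy, hpl, hpen⟩ := addr_path h12 N hN hxy w hw
  obtain ⟨p', hp', hy', hpl', hpen'⟩ := addr_path h12 N hN hxy.symm w' (by omega)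
  have hq : (SimpleGraph.Walk.cons hxy.symm p).IsPath := by
    rw [SimpleGraph.Walk.cons_isPath_iff]
    exact ⟨hp, hy⟩
  have hq' : (SimpleGraph.Walk.cons hxy p').IsPath := by
    rw [SimpleGraph.Walk.cons_isPath_iff]
    exact ⟨hp', hy'⟩
  by_cases ha : (addr N y x w').1 = (addr N x y w).2
  · cases w with
    | nil =>
      refine ⟨rfl, ?_⟩
      have h1 : (addr N y x w').1 = (addr N y x []).1 := ha
      exact addr_inj h12 N hN hxy.symm w' [] (by omega) (by simp) h1
    | cons c w =>
      exfalso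
      rw [List.length_cons] at hw
      exact addr_ne h12 N hN hxy w w' (by omega) (by omega) (ha.symm)
  · exfalso
    have h4 := ext_path h12 _ hq (by rw [SimpleGraph.Walk.length_cons]; omega) h
      (by rw [hpen]; exact ha)
    rw [SimpleGraph.Walk.support_cons, List.mem_cons, not_or] at h4
    have e1 := Ord.uniq h12 (hp.concat h4.2 h) hq' (by
      rw [SimpleGraph.Walk.length_concat, SimpleGraph.Walk.length_cons]; omega)
    have h5 : y ∈ (SimpleGraph.Walk.cons hxy p').support := by
      rw [SimpleGraph.Walk.support_cons]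
      exact List.mem_cons_of_mem _ p'.start_mem_support
    rw [← e1, SimpleGraph.Walk.support_concat, List.mem_append, List.mem_singleton] at h5
    rcases h5 with h5 | h5
    · exact hy h5
    · exact h4.1 h5.symm

end graph

/-- **Main step.** -/
theorem flow_of_no_mod (hc : St_contract) {V E : Type} [Fintype V] [DecidableEq V]
    [Fintype E] [DecidableEq E] (src dst : E → V) (hcl : ¬ ∃ β, Mod src dst ∅ β)
    (hbr : Br src dst ∅ ∅) : FlowOn src dst ∅ ∅ := by
  classical
  by_contra hn
  obtain ⟨s, d, hS, hM⟩ := exists_minC cc src dst hcl hbr hn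
  have h3 := threeC hc hM
  have hgi := girthC hc hM
  by_cases hl : ∀ e, s e = d e
  · exact hM.nf (flow_of_loops hl)
  push Not at hl
  obtain ⟨e, he⟩ := hl
  let G : SimpleGraph V :=
    { Adj := Adj s d
      symm := ⟨fun a b h => GiAux.adj_symm h⟩
      loopless := ⟨fun a h => h.1 rfl⟩ }
  have h12 : ∀ (w : V) (c : G.Walk w w), c.IsCycle → 12 ≤ c.length :=
    fun w c hc => Ord.cycle_len hgi G (fun a b => Iff.rfl) c hc
  have h3' : ∀ x y, G.Adj x y → ∃ a b c, G.Adj x a ∧ G.Adj x b ∧ G.Adj x c ∧ a ≠ b ∧ a ≠ c ∧ b ≠ c :=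
    fun x y h => h3 x y h
  have hxy : G.Adj (s e) (d e) := ⟨he, e, Or.inl ⟨rfl, rfl⟩⟩
  obtain ⟨N, hN⟩ : ∃ N : V → V → V × V, ∀ v pr : V, (∃ z, G.Adj v z) →
      G.Adj v (N v pr).1 ∧ G.Adj v (N v pr).2 ∧
      (N v pr).1 ≠ (N v pr).2 ∧ (N v pr).1 ≠ pr ∧ (N v pr).2 ≠ pr := by
    have : ∀ v pr : V, ∃ q : V × V, (∃ z, G.Adj v z) → G.Adj v q.1 ∧ G.Adj v q.2 ∧
        q.1 ≠ q.2 ∧ q.1 ≠ pr ∧ q.2 ≠ pr := by
      intro v pr
      by_cases hz : ∃ z, G.Adj v z
      · obtain ⟨z, hz⟩ := hz
        obtain ⟨a, b, h⟩ := two_more (pr := pr) (h3' v z hz)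
        exact ⟨(a, b), fun _ => h⟩
      · exact ⟨(v, v), fun h => absurd h hz⟩
    choose N hN using this
    exact ⟨N, hN⟩
  obtain ⟨x, hx⟩ : ∃ x, x = s e := ⟨_, rfl⟩
  obtain ⟨y, hy⟩ : ∃ y, y = d e := ⟨_, rfl⟩
  rw [← hx, ← hy] at hxy
  let emb : Bool × List Bool → V := fun t => if t.1 then (addr N y x t.2).1 else (addr N x y t.2).1
  have hA5 : ∀ t, Addr t → t.2.length ≤ 5 := by
    rintro ⟨b, w⟩ h
    unfold Addr at h
    cases b
    · exact h
    · exact le_trans h (by norm_num)
  have hinj : ∀ t t' : Bool × List Bool, Addr t → Addr t' → emb t = emb t' → t = t' := by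
    rintro ⟨b, w⟩ ⟨b', w'⟩ h1 h2 h
    replace h1 : w.length ≤ 5 := hA5 _ h1
    replace h2 : w'.length ≤ 5 := hA5 _ h2
    cases b <;> cases b' <;> simp only [emb, if_true, if_false, Bool.false_eq_true] at h
    · rw [addr_inj h12 N hN hxy w w' h1 h2 h]
    · exact absurd h (addr_ne h12 N hN hxy w w' h1 h2)
    · exact absurd h.symm (addr_ne h12 N hN hxy w' w h2 h1)
    · rw [addr_inj h12 N hN hxy.symm w w' h1 h2 h]
  have hadj : ∀ (b c : Bool) (w : List Bool), w.length ≤ 5 → G.Adj (emb (b, w)) (emb (b, c :: w)) := by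
    intro b c w hw
    cases b
    · obtain ⟨p, -⟩ := addr_path h12 N hN hxy w hw
      obtain ⟨n1, n2, -⟩ := hN (addr N x y w).1 (addr N x y w).2 (Ord.nbr hxy p)
      cases c
      · exact n2
      · exact n1
    · obtain ⟨p, -⟩ := addr_path h12 N hN hxy.symm w hw
      obtain ⟨n1, n2, -⟩ := hN (addr N y x w).1 (addr N y x w).2 (Ord.nbr hxy.symm p)
      cases c
      · exact n2
      · exact n1
  have hnadj : ∀ t t', Addr t → Addr t' → G.Adj (emb t) (emb t') → TE t t' ∨ TE t' t := by
    rintro ⟨b, w⟩ ⟨b', w'⟩ h1 h2 h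
    have k1 : w.length ≤ 5 := hA5 _ h1
    have k2 : w'.length ≤ 5 := hA5 _ h2
    cases b <;> cases b' <;> simp only [emb, if_true, if_false, Bool.false_eq_true] at h
    · rcases adj_same h12 N hN hxy w w' k1 k2 h with ⟨c, rfl⟩ | ⟨c, rfl⟩
      · exact Or.inr (TE.child _ _ _ h1)
      · exact Or.inl (TE.child _ _ _ h2)
    · obtain ⟨rfl, rfl⟩ := adj_diff h12 N hN hxy w w' k1 h2 h
      exact Or.inl TE.root
    · obtain ⟨rfl, rfl⟩ := adj_diff h12 N hN hxy w' w k2 h1 h.symm
      exact Or.inr TE.root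
    · rcases adj_same h12 N hN hxy.symm w w' k1 k2 h with ⟨c, rfl⟩ | ⟨c, rfl⟩
      · exact Or.inr (TE.child _ _ _ h1)
      · exact Or.inl (TE.child _ _ _ h2)
  let β : V → Option (Bool × List Bool) := fun v =>
    if h : ∃ t : Bool × List Bool, Addr t ∧ emb t = v then some (Classical.choose h) else none
  have hβ1 : ∀ t : Bool × List Bool, Addr t → β (emb t) = some t := by
    intro t ht
    have h : ∃ t' : Bool × List Bool, Addr t' ∧ emb t' = emb t := ⟨t, ht, rfl⟩
    have h1 := Classical.choose_spec h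
    simp only [β]
    rw [dif_pos h]
    congr 1
    exact hinj _ _ h1.1 ht h1.2
  have hβ2 : ∀ v t, β v = some t → Addr t ∧ emb t = v := by
    intro v t h
    simp only [β] at h
    by_cases h1 : ∃ t : Bool × List Bool, Addr t ∧ emb t = v
    · rw [dif_pos h1, Option.some_inj] at h
      rw [← h]
      exact Classical.choose_spec h1
    · rw [dif_neg h1] at h
      exact absurd h (by simp)
  have hedge : ∀ t t' : Bool × List Bool, Addr t → Addr t' → G.Adj (emb t) (emb t') →
      ∃ e, (β (s e) = some t ∧ β (d e) = some t') ∨ (β (d e) = some t ∧ β (s e) = some t') := by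
    intro t t' h1 h2 h
    obtain ⟨-, e', he'⟩ := h
    refine ⟨e', ?_⟩
    rcases he' with ⟨a, b⟩ | ⟨a, b⟩
    · left
      rw [a, b]
      exact ⟨hβ1 t h1, hβ1 t' h2⟩
    · right
      rw [a, b]
      exact ⟨hβ1 t h1, hβ1 t' h2⟩
  have hpar : ∀ b c w, Addr (b, c :: w) → Addr (b, w) := by
    intro b c w h
    unfold Addr at h ⊢
    simp only [List.length_cons] at h ⊢
    omega
  -- every vertex of the tree has a neighbour
  have hnb : ∀ t, Addr t → ∃ z, G.Adj (emb t) z := by
    rintro ⟨b, w⟩ ht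
    exact ⟨_, hadj b false w (hA5 _ ht)⟩
  apply hS
  refine ⟨β, fun v t h => (hβ2 v t h).1, ?_, ?_, ?_, ?_, fun e he => absurd he (notMem_empty e)⟩
  · intro t ht X hv hv'
    obtain ⟨v, hvX, hvt⟩ := hv
    obtain ⟨v', hvX', hvt'⟩ := hv'
    exfalso
    apply hvX'
    rw [← (hβ2 v' t hvt').2, (hβ2 v t hvt).2]
    exact hvX
  · intro t ht
    obtain ⟨z, hz⟩ := hnb t ht
    have h4 := cut_three hM hz
    refine le_trans h4 (card_le_card ?_)
    intro e' he'
    rw [Cut3.mem_crs, mem_singleton, mem_singleton] at he'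
    rw [mem_filter]
    refine ⟨mem_univ _, fun h5 => he' ?_⟩
    constructor
    · intro h6
      rw [h6, hβ1 t ht] at h5
      exact (hβ2 _ _ (h5.1 rfl)).2.symm
    · intro h6
      rw [h6, hβ1 t ht] at h5
      exact (hβ2 _ _ (h5.2 rfl)).2.symm
  · intro t t' h
    cases h with
    | root => exact hedge (false, []) (true, []) (by simp [Addr]) (by simp [Addr]) hxy
    | child b c w hw => exact hedge (b, w) (b, c :: w) (hpar b c w hw) hw (hadj b c w
        (hA5 _ (hpar b c w hw)))
  · intro e' t t' h1 h2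
    obtain ⟨a1, a2⟩ := hβ2 _ _ h1
    obtain ⟨b1, b2⟩ := hβ2 _ _ h2
    by_cases h4 : s e' = d e'
    · left
      exact hinj t t' a1 b1 (by rw [a2, b2, h4])
    · right
      apply hnadj t t' a1 b1
      rw [a2, b2]
      exact ⟨h4, e', Or.inl ⟨rfl, rfl⟩⟩

/-- with the contraction of `F` -/
theorem flow_free (hq : St_quot) (hc : St_contract) {V E : Type} [Fintype V] [DecidableEq V]
    [Fintype E] [DecidableEq E] (src dst : E → V) (F : Finset E) (hcl : ¬ ∃ β, Mod src dst F β)
    (hbr : Br src dst ∅ F) : FlowOn src dst ∅ F := by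
  obtain ⟨W, _, _, r, hr, hF, hX, hY⟩ := hq V E src dst F
  have h1 : FlowOn (r ∘ src) (r ∘ dst) ∅ ∅ := by
    apply flow_of_no_mod hc
    · rintro ⟨β, hβ⟩
      exact hcl ⟨_, mod_quot src dst F r hF hY hr hβ⟩
    · intro Y _
      have h2 : crs (r ∘ src) (r ∘ dst) Y = crs src dst (univ.filter fun v => r v ∈ Y) := by
        ext e
        simp [crs]
      rw [h2]
      apply hbr
      rw [Finset.disjoint_left]
      intro e he heF
      simp only [crs, mem_filter, mem_univ, true_and] at he
      rw [hF e heF] at he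
      exact he Iff.rfl
  have h2 := hX ∅ h1
  rwa [union_empty] at h2

end Pool.T9h45.IT
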